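import Pool.Agent.J4.H2.VT.Fin4
import Pool.Agent.J4.H2.VT.T_SER2
import Pool.Agent.J4.H2.VT.T_TRUI
import Pool.Agent.J4.H2.VT.T_FIN
import Pool.Agent.J4.H2.VT.T_LHT
import Pool.Agent.J4.H2.VT.T_LTRI
import Pool.Agent.J4.H2.VT.T_GLIN
import Pool.Agent.J4.H5.VJ.T_POW
import Pool.Agent.J4.H5.VJ.T_HT
import Pool.Agent.J4.H5.VJ.T_UNR
import Pool.Agent.J4.H5.VJ.T_KUM
import Pool.Agent.J4.H5.VJ.T_CNT
import Pool.Agent.J4.H5.VJ.T_DIV
import Pool.Agent.J4.H5.VJ.T_DISC
import Pool.Agent.J4.H5.VJ.T_FREE
import Pool.Agent.J4.H5.VJ.T_PUSHX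
import Pool.Agent.J4.H5.VJ.T_PULLX
import Pool.Agent.J4.H5.VJ.T_ROWS
import Pool.Agent.J4.H5.VJ.T_ROWM
import Pool.Agent.J4.H5.VJ.T_NSX
import Pool.Agent.J4.H5.VJ.T_NCV
import Pool.Agent.J4.H5.VJ.T_NCW
import Pool.Agent.J4.H5.VJ.T_BERV
import Pool.Agent.J4.H5.VJ.T_BER1X
import Pool.Agent.J4.H5.VJ.T_GENX

/-!
# Vojta's truncated inequality with an arbitrarily large error term

`X : f_1 = … = f_t = 0` is a smooth projective variety of codimension `s` in `ℙⁿ` over the number
field `k`, given by forms of degrees `d_i`, and `D : G_1 = … = G_u = 0` is an effective divisor on `X`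
with strict normal crossings (`IsSNCV s f G`), given by forms of degree `e` (every effective divisor is
of this form; `D = 0` is allowed). `HoldsTV k s f G e A r` says: there is a closed subset `P = 0` of
`ℙⁿ` which contains no component of `X` such that for every finite set `S` of primes of `k` (the
archimedean places are always added) there is a `c` such that for all number fields `L` of degree at
most `r` over `k` and all points `x ∈ X(L)` outside the closed subset and `D`
`h_K(x) + h_D(x) ≤ N_S^(1)(D, x) + A h(x) + d_k(L) + c`.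
Here `h` is the logarithmic height relative to `k`; `h_K(x) = h(γ(x)) - (n - s + 1) h(x)` with the
Gauss map `γ` (the minors of size `s` of the Jacobian matrix of the `f_i`) is the height of the
canonical divisor; `h_D(x) = e h(x) - h(G_1(x), …, G_u(x))`; `N_S^(1)(D, x)` (`truncatedI S e G x`) is
the sum of `log N(w) / [L : k]` over the primes `w` of `L`, not above `S`, with
`|G_i(x)|_w < max_j |x_j|_w ^ e` for all `i`; and `d_k(L) = log |disc L| / [L : k] - log |disc k|`.
Vojta's truncated inequality is the case `A = ε`.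

Proof. By Bertini's theorem `X` and `D` are in general position to the coordinate hyperplanes `H_i`
after a linear change of the coordinates. Let `y_i ^ m = x_i` and apply the weak inequality to the pull
backs `X_m`, `D_m` of `X`, `D` and to the point `y` over a Galois extension `L'` of `L`:
`h(y) = h(x) / m`, `h_K(y) ≥ h_K(x) + (n + 1)(1 - 1 / m) h(x) + O(1)` for the canonical divisor of `X_m`,
and a prime of `L` outside `m` which divides the different of `L' / L` or lies below a prime at which
`y` meets `D_m` is a prime at which `x` meets `D` or `H_0 + ⋯ + H_n`. At a prime with ramification index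
`e_w` the sum of the exponent of the different and `1` is at most `e_w`. As
`N^(1)(H_0 + ⋯ + H_n, x) ≤ (n + 1) h(x)`, this gives the inequality for `x` with the error term
`(A + n + 1) h(x) / m`.
-/

set_option autoImplicit false

open MvPolynomial NumberField

namespace Pool.Agent.Results.MP_9ec3f0_nt.AnyConstant

open Pool.Agent.J4.H5.VJ Pool.Agent.J4.H2.VT

/-- The following are equivalent, for a number field `k` and numbers `n, s, t, u`, where `(X, D)` runs
through the pairs as above (`X` smooth of codimension `s` in `ℙⁿ` over `k`, given by `t` forms of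
degrees `d_i`, `D` an effective divisor on `X` with strict normal crossings, given by `u` forms of
degree `e`, `e + ∑ d_i ≥ 1`):
(1) Vojta's truncated inequality holds for all pairs `(X, D)`, all `ε > 0` and the points of bounded
degree;
(2) there is a constant `A` such that the inequality with the error term `A h(x)` holds for all pairs
`(X, D)` and the points of bounded degree;
(3) for every `δ > 0` the inequality with the error term `δ (e + ∑ d_i) h(x)` holds for all pairs
`(X, D)` with `e + ∑ d_i` sufficiently large and the points of bounded degree. -/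
theorem result (k : Type) [Field k] [NumberField k] (n s t u : ℕ) :
    List.TFAE [
      ∀ (f : Fin t → MvPolynomial (Fin (n + 1)) k) (d : Fin t → ℕ)
        (G : Fin u → MvPolynomial (Fin (n + 1)) k) (e : ℕ), (∀ i, (f i).IsHomogeneous (d i)) →
        (∀ i, (G i).IsHomogeneous e) → 1 ≤ e + ∑ i, d i → IsSNCV s f G →
        ∀ ε : ℝ, 0 < ε → ∀ r : ℕ, HoldsTV k s f G e ε r,
      ∃ A : ℝ, ∀ (f : Fin t → MvPolynomial (Fin (n + 1)) k) (d : Fin t → ℕ)
        (G : Fin u → MvPolynomial (Fin (n + 1)) k) (e : ℕ), (∀ i, (f i).IsHomogeneous (d i)) →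
        (∀ i, (G i).IsHomogeneous e) → 1 ≤ e + ∑ i, d i → IsSNCV s f G →
        ∀ r : ℕ, HoldsTV k s f G e A r,
      ∀ δ : ℝ, 0 < δ → ∃ τ : ℕ, ∀ (f : Fin t → MvPolynomial (Fin (n + 1)) k)
        (d : Fin t → ℕ) (G : Fin u → MvPolynomial (Fin (n + 1)) k) (e : ℕ),
        (∀ i, (f i).IsHomogeneous (d i)) → (∀ i, (G i).IsHomogeneous e) → 1 ≤ e + ∑ i, d i →
        τ ≤ e + ∑ i, d i → IsSNCV s f G →
        ∀ r : ℕ, HoldsTV k s f G e (δ * (e + ∑ i, (d i : ℝ))) r] := by
  have h := equivV t_SER2 t_TRUI t_FIN
    (fun k L _ _ _ _ _ M m y hm hM => (t_POW k L M ∅ 0 m 0 y hm hM).2)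
    t_HT t_UNR t_KUM t_CNT t_DIV t_DISC t_PUSHX t_ROWS t_NSX t_ROWM (t_PULLX t_FREE) t_NCV t_NCW
    (t_BERV t_BER1X t_GENX) t_LHT t_LTRI t_GLIN k n s t u
  tfae_have 1 ↔ 2 := h.1
  tfae_have 1 ↔ 3 := h.2
  tfae_finish

end Pool.Agent.Results.MP_9ec3f0_nt.AnyConstant
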