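import Pool.Agent.J4.H74.VojBA

/-!
# Vojta's conjecture with truncated counting function at the good rational approximations of almost all
real points

`K` is a number field of degree `d`, `n ≥ 0`, and `D = ∏ F_j = 0` ANY reduced divisor of `ℙⁿ` over `K`
(arbitrary singularities and intersections) with components `F_j = 0` irreducible over `K` of degree
`k_j`. A component has weight `m_j = k_j` if it is a hyperplane or a quadric; weight `m_j` if it is
geometrically a union of conjugate hyperplanes whose intersection has codimension `m_j`; each component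
has weight one.

We approximate the points `z` of the real vector space `(K ⊗ ℝ)ⁿ = (ℝ^r × ℂ^s)ⁿ` of dimension `n d`
(for `K = ℚ`: of `ℝⁿ`) by the points `x` of `Kⁿ`, `H(x)` the height, relative to `K`, of
`(1 : x_1 : … : x_n)`. Let `τ > 0`, `0 ≤ θ < ∑ m_j`. There is `c > 0` such that for all `z` outside a set of
Hausdorff dimension at most `(n + 1 - c) / τ`, ALL but finitely many `x ∈ Kⁿ` with
`|z - x| ≤ A H(x) ^ (-τ)` (any `A`) are off `D` and satisfy

  `N¹_S(D, x) ≥ θ h(x) + Λ ∑ h_{(F'_l, G'_l)}(x)`.

As `h_{K + D} = (∑ k_j - n - 1) h` on `ℙⁿ`, this is the inequality of the question, with `ε = C = 0`,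
whenever the sum of the `k_j - m_j` is at most `n`. The exceptional set is a null set for
`τ > (n + 1 - c) / (n d)`. For `K = ℚ` and for imaginary quadratic `K` every `z` not in `Kⁿ` has
infinitely many approximations with `τ = (n + 1) / (n d)`, by Dirichlet's theorem; for example all the
best simultaneous approximations of `z` (the convergents, if `n = 1`, `K = ℚ`) are among them. They are a
very sparse set, and so the result does not follow from the size of the exceptional set in
`BirationalToProjectiveSpace` alone: it is a metric theorem about all of them, for almost all `z`.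

Proof. The exceptional points of height at most `B` are at most `O(B ^ (n + 1 - c))` by `R366/NF`
(starting files); the Hausdorff dimension of the set of the points with infinitely many good
approximations in such a set is at most `(n + 1 - c) / τ` (`R479/DB`).
-/

set_option autoImplicit false

namespace Pool.Agent.Results.MP_9ec3f0_nt.ApproximationsOfRealPoints

open MvPolynomial NumberField IsDedekindDomain

variable {K : Type} [Field K] [NumberField K] {n q : ℕ}

/-- `F` is, up to a constant factor, the norm form of `∑ α i * x i` from an extension `E` of `K`, and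
`m` of the `α i` are linearly independent over `K`. -/
def IsNormForm (F : MvPolynomial (Fin (n + 1)) (𝓞 K)) (m : ℕ) : Prop :=
  ∃ (E : Type) (_ : Field E) (_ : NumberField E) (_ : Algebra K E) (c : K) (α : Fin (n + 1) → E)
    (J : Finset (Fin (n + 1))), c ≠ 0 ∧ J.card = m ∧
      LinearIndependent K (fun j : J => α j) ∧
      ∀ x : Fin (n + 1) → 𝓞 K, ((eval x F : 𝓞 K) : K) =
        c * Algebra.norm K (∑ i, algebraMap K E (x i) * α i)

open Classical in
/-- The truncated counting function `N¹_S(D, P)` at the point `P` with coordinates `x`: the sum of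
`log N(v)` over the primes `v` of `K`, not above `S`, with `|F_j(x)|_v < |x|_v ^ k_j` for some `j`. -/
noncomputable def truncatedCount (S : Finset ℕ) (F : Fin q → MvPolynomial (Fin (n + 1)) (𝓞 K))
    (k : Fin q → ℕ) (x : Fin (n + 1) → K) : ℝ :=
  ∑ᶠ v : HeightOneSpectrum (𝓞 K), if (∀ p ∈ S, (p : 𝓞 K) ∉ v.asIdeal) ∧
      ∃ j, FinitePlace.mk v (aeval x (F j)) < (⨆ i, FinitePlace.mk v (x i)) ^ k j
    then Real.log (Ideal.absNorm v.asIdeal) else 0

/-- the local height relative to the ideal `(F, G)`, `F` and `G` forms of degrees `k` and `e` -/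
noncomputable def idealLoc (F G : MvPolynomial (Fin (n + 1)) (𝓞 K)) (k e : ℕ)
    (x : Fin (n + 1) → K) (v : K → ℝ) : ℝ :=
  - Real.log (max (v (aeval x F) / (⨆ i, v (x i)) ^ k) (v (aeval x G) / (⨆ i, v (x i)) ^ e))

/-- the height relative to the ideal `(F, G)`, `F` and `G` forms of degrees `k` and `e` -/
noncomputable def idealHeight (F G : MvPolynomial (Fin (n + 1)) (𝓞 K)) (k e : ℕ)
    (x : Fin (n + 1) → K) : ℝ :=
  ∑ w : InfinitePlace K, w.mult * idealLoc F G k e x w +
    ∑ᶠ v : FinitePlace K, idealLoc F G k e x v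

/-- the homogeneous coordinates `(1 : x_1 : … : x_n)` of the point `x` -/
def coords (x : Fin n → K) : Fin (n + 1) → K := Fin.cons 1 x

open scoped Classical in
/-- the distance of `z ∈ (K ⊗ ℝ)ⁿ` and `x ∈ Kⁿ`: the maximum of `|z_i - x_i|_w` over all the coordinates
and the archimedean places `w` -/
noncomputable def distance (z : Fin n → mixedEmbedding.mixedSpace K) (x : Fin n → K) : ℝ :=
  dist z (fun i => mixedEmbedding K (x i))

open scoped Classical in
/-- **The good approximations of almost all real points.** Let `F_j`, `j < q`, be forms over the integers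
of `K` in `n + 1` variables, of degrees `k_j`, irreducible over `K` and pairwise not associated, with
weights `m_j` (`m_j ≤ 1`, or `m_j ≤ k_j ≤ 2`, or `F_j` is a norm form of linear forms spanning a space of
dimension `m_j`), `S` a finite set of rational primes, `(F'_l, G'_l)` pairs of forms with `F'_l`
irreducible, not dividing `G'_l`, `Λ ≥ 0` and `0 ≤ θ < ∑ m_j`. There is `c > 0` such that for all `τ > 0`
there is a set `E` of real points `z ∈ (K ⊗ ℝ)ⁿ` with the following properties. The Hausdorff dimension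
of `E` is at most `(n + 1 - c) / τ`; if this is less than `n [K : ℚ]`, then `E` has Haar measure zero. For
all `z` not in `E` and all `A`, all but finitely many `x ∈ Kⁿ` with `|z - x| ≤ A H(x) ^ (-τ)` satisfy
`F_j(1, x) ≠ 0` for all `j` and `θ h(x) + Λ ∑_l h_{(F'_l, G'_l)}(x) ≤ N¹_S(D, x)`. -/
theorem result (K : Type) [Field K] [NumberField K] (n q : ℕ)
    (F : Fin q → MvPolynomial (Fin (n + 1)) (𝓞 K)) (k m : Fin q → ℕ)
    (hhom : ∀ j, (F j).IsHomogeneous (k j))
    (hirr : ∀ j, Irreducible (map (algebraMap (𝓞 K) K) (F j)))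
    (hdist : ∀ i j, i ≠ j →
      ¬ Associated (map (algebraMap (𝓞 K) K) (F i)) (map (algebraMap (𝓞 K) K) (F j)))
    (hm : ∀ j, m j ≤ 1 ∨ (m j ≤ k j ∧ k j ≤ 2) ∨ IsNormForm (F j) (m j))
    (S : Finset ℕ) (hS : ∀ p ∈ S, p.Prime)
    (t : ℕ) (F' G' : Fin t → MvPolynomial (Fin (n + 1)) (𝓞 K)) (k' e' : Fin t → ℕ)
    (hF' : ∀ l, (F' l).IsHomogeneous (k' l)) (hG' : ∀ l, (G' l).IsHomogeneous (e' l))
    (hirr' : ∀ l, Irreducible (map (algebraMap (𝓞 K) K) (F' l)))
    (hcop : ∀ l, ¬ map (algebraMap (𝓞 K) K) (F' l) ∣ map (algebraMap (𝓞 K) K) (G' l))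
    (Λ : ℝ) (hΛ : 0 ≤ Λ) (θ : ℝ) (hθ0 : 0 ≤ θ) (hθ : θ < ∑ j, (m j : ℝ)) :
    ∃ c : ℝ, 0 < c ∧ ∀ τ : ℝ, 0 < τ → ∃ E : Set (Fin n → mixedEmbedding.mixedSpace K),
      dimH E ≤ ENNReal.ofReal (((n : ℝ) + 1 - c) / τ) ∧
      (((n : ℝ) + 1 - c) / τ < n * Module.finrank ℚ K →
        ∀ μ : MeasureTheory.Measure (Fin n → mixedEmbedding.mixedSpace K),
          μ.IsAddHaarMeasure → μ E = 0) ∧
      ∀ z, z ∉ E → ∀ A : ℝ, {x : Fin n → K |
        distance z x ≤ A * Height.mulHeight (coords x) ^ (-τ) ∧
        ¬ ((∀ j, aeval (coords x) (F j) ≠ 0) ∧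
          θ * Height.logHeight (coords x) +
            Λ * ∑ l, idealHeight (F' l) (G' l) (k' l) (e' l) (coords x) ≤
          truncatedCount S F k (coords x))}.Finite := by
  obtain ⟨c, hc, h⟩ := Pool.Agent.J4.H74.VojBA.main F k m hhom hirr hdist hm S hS F' G' k' e' hF' hG'
    hirr' hcop Λ hΛ θ hθ0 hθ
  refine ⟨c, hc, fun τ hτ => ?_⟩
  obtain ⟨E, h1, h2, h3⟩ := h τ hτ
  exact ⟨E, h1, h2, fun z hz A => h3 z hz A⟩

end Pool.Agent.Results.MP_9ec3f0_nt.ApproximationsOfRealPoints
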