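import Mathlib
import Pool.Agent.J4.H51.El.Main

set_option autoImplicit false

/-!
# Vojta's conjecture with truncated counting function: the error term on elliptic curves

`K` is a number field, `E` the elliptic curve `y² = x³ + a x + b` over `K`, `r` the rank of `E(K)`, and
`D = T_0 + ... + T_q` with `K`-rational points `T_j`; the canonical divisor of `E` is zero. Among the points of
`E(K)` of height at most `B` (there are about `B ^ (r / 2)` of them), at least a constant times
`B ^ (r / 2) e ^ (-Δ)` points have a truncated counting function at most `h_D(P) - Δ`. Hence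
the error term in the inequality `N_S^{(1)}(D, P) ≥ h_D(P) - error` is at least `(r / 2) log h_D(P) - O(1)` for
infinitely many points.
-/

namespace Pool.Agent.Results.MP_9ec3f0_nt.EllipticErrorTerm

open NumberField IsDedekindDomain

/-- the curve `y² = x³ + a x + b` -/
def curve {K : Type} [Field K] (a b : K) : WeierstrassCurve K where
  a₁ := 0
  a₂ := 0
  a₃ := 0
  a₄ := a
  a₆ := b

/-- the group `E(K)` of the curve `y² = x³ + a x + b` -/
abbrev Points {K : Type} [Field K] (a b : K) : Type := (curve a b).toAffine.Point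

variable {K : Type} [Field K] [NumberField K] [DecidableEq K]

/-- The reduction of the point `P` at the prime `v` is the point at infinity: `P = (x, y)` with `|x|_v > 1`. -/
def MeetsOrigin {a b : K} (v : HeightOneSpectrum (𝓞 K)) (P : Points a b) : Prop :=
  ∃ (x y : K) (h : (curve a b).toAffine.Nonsingular x y),
    P = WeierstrassCurve.Affine.Point.some x y h ∧ 1 < FinitePlace.mk v x

/-- The height (relative to `K`) of `P` for the divisor `T_0 + ... + T_q`: the sum over `j` of half the height of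
the coordinate `x(P - T_j)`. -/
noncomputable def height {a b : K} {q : ℕ} (T : Fin (q + 1) → Points a b) (P : Points a b) : ℝ :=
  ∑ j, Height.logHeight (P - T j).xRep / 2

/-- The truncated counting function `N_S^{(1)}(D, P)` for `D = T_0 + ... + T_q`: the sum of `log N(v)` over the
primes `v` outside `S` at which some `P - T_j` reduces to the point at infinity. -/
noncomputable def truncated {a b : K} {q : ℕ} (S : Set (HeightOneSpectrum (𝓞 K)))
    (T : Fin (q + 1) → Points a b) (P : Points a b) : ℝ :=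
  ∑ᶠ v ∈ {v : HeightOneSpectrum (𝓞 K) | v ∉ S ∧ ∃ j, MeetsOrigin v (P - T j)},
    Real.log (Ideal.absNorm v.asIdeal : ℝ)

/-- Let `E : y² = x³ + a x + b` be an elliptic curve over the number field `K`, `r` the rank of `E(K)`, and
`D = T_0 + ... + T_q` a sum of points of `E(K)`. There are `c > 0`, `C`, `B₀` such that for every
set `S` of primes, every `B ≥ B₀` and every `Δ ≥ 0`, at least `c B ^ (r / 2) e ^ (-Δ) - C` points `P` of `E(K)`
off `D` satisfy `h_D(P) ≤ B` and `N_S^{(1)}(D, P) ≤ h_D(P) - Δ`. If `r > 0`, there is `C'` such that for every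
`S` there are infinitely many `P` in `E(K)` off `D` with
`N_S^{(1)}(D, P) ≤ h_D(P) - (r / 2) log h_D(P) + C'`. -/
theorem result (K : Type) [Field K] [NumberField K] [DecidableEq K] (a b : K)
    (hab : 4 * a ^ 3 + 27 * b ^ 2 ≠ 0) (q : ℕ) (T : Fin (q + 1) → Points a b) :
    (∃ c C B₀ : ℝ, 0 < c ∧ ∀ (S : Set (HeightOneSpectrum (𝓞 K))) (B Δ : ℝ), B₀ ≤ B → 0 ≤ Δ →
      ∃ Ps : Finset (Points a b),
        c * B ^ ((Module.finrank ℤ (Points a b) : ℝ) / 2) * Real.exp (-Δ) - C ≤ Ps.card ∧
        ∀ P ∈ Ps, (∀ j, P ≠ T j) ∧ height T P ≤ B ∧ truncated S T P ≤ height T P - Δ) ∧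
    (0 < Module.finrank ℤ (Points a b) → ∃ C' : ℝ, ∀ S : Set (HeightOneSpectrum (𝓞 K)),
      {P : Points a b | (∀ j, P ≠ T j) ∧ truncated S T P ≤
        height T P - (Module.finrank ℤ (Points a b) : ℝ) / 2 * Real.log (height T P) +
          C'}.Infinite) := by
  have hmain : ∃ c C B₀ : ℝ, 0 < c ∧ ∀ (S : Set (HeightOneSpectrum (𝓞 K))) (B Δ : ℝ), B₀ ≤ B →
      0 ≤ Δ → ∃ Ps : Finset (Points a b),
        c * B ^ ((Module.finrank ℤ (Points a b) : ℝ) / 2) * Real.exp (-Δ) - C ≤ Ps.card ∧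
        ∀ P ∈ Ps, (∀ j, P ≠ T j) ∧ height T P ≤ B ∧ truncated S T P ≤ height T P - Δ := by
    obtain ⟨c, C, B₀, hc, h⟩ := Pool.Agent.J4.H51.El.main (a := a) (b := b) hab q T
    refine ⟨c, C, B₀, hc, fun S B Δ hB hΔ => ?_⟩
    obtain ⟨Ps, h1, h2⟩ := h B Δ hB hΔ
    refine ⟨Ps, h1, fun P hP => ?_⟩
    obtain ⟨h3, h4, h5, h6⟩ := h2 P hP
    refine ⟨h3, h4, ?_⟩
    have hfin : {v : HeightOneSpectrum (𝓞 K) | v ∉ S ∧ ∃ j, MeetsOrigin v (P - T j)}.Finite :=
      h5.subset fun v hv => hv.2
    have htr : truncated S T P = ∑ v ∈ hfin.toFinset, Pool.Agent.W231.V.ell v := by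
      unfold truncated
      rw [finsum_mem_eq_finite_toFinset_sum _ hfin]
      rfl
    rw [htr]
    exact h6 hfin.toFinset fun v hv => (hfin.mem_toFinset.1 hv).2
  refine ⟨hmain, fun hr => ?_⟩
  obtain ⟨c, C, B₀, hc, h⟩ := hmain
  set r : ℕ := Module.finrank ℤ (Points a b) with hrdef
  have hr' : (0 : ℝ) < (r : ℝ) / 2 := by
    have : (0 : ℝ) < (r : ℝ) := by exact_mod_cast hr
    linarith
  set L : ℝ := Real.log ((|C| + 1) / c) with hL
  have hexpL : Real.exp L = (|C| + 1) / c := Real.exp_log (by positivity)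
  refine ⟨L, fun S hfin => ?_⟩
  obtain ⟨H, hH⟩ : ∃ H : ℝ, ∀ P ∈ {P : Points a b | (∀ j, P ≠ T j) ∧ truncated S T P ≤
        height T P - (r : ℝ) / 2 * Real.log (height T P) + L}, height T P ≤ H := by
    obtain ⟨H, hH⟩ := (hfin.image (height T)).bddAbove
    exact ⟨H, fun P hP => hH ⟨P, hP, rfl⟩⟩
  -- choose `B`
  obtain ⟨B, hB0, hB1, hBΔ⟩ : ∃ B : ℝ, B₀ ≤ B ∧ 1 ≤ B ∧
      max H 0 + 1 + L ≤ (r : ℝ) / 2 * Real.log B := by
    refine ⟨max B₀ (max 1 (Real.exp ((max H 0 + 1 + L) / ((r : ℝ) / 2)))), le_max_left _ _,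
      (le_max_left _ _).trans (le_max_right _ _), ?_⟩
    have h1 : (max H 0 + 1 + L) / ((r : ℝ) / 2) ≤
        Real.log (max B₀ (max 1 (Real.exp ((max H 0 + 1 + L) / ((r : ℝ) / 2))))) := by
      rw [Real.le_log_iff_exp_le (lt_of_lt_of_le one_pos
        ((le_max_left _ _).trans (le_max_right _ _)))]
      exact (le_max_right _ _).trans (le_max_right _ _)
    rwa [div_le_iff₀' hr'] at h1
  have hBpos : 0 < B := by linarith
  set Δ : ℝ := (r : ℝ) / 2 * Real.log B - L with hΔ
  have hmax0 := le_max_right H 0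
  have hΔ0 : 0 ≤ Δ := by rw [hΔ]; linarith
  obtain ⟨Ps, hP1, hP2⟩ := h S B Δ hB0 hΔ0
  have hcount : c * B ^ ((r : ℝ) / 2) * Real.exp (-Δ) = |C| + 1 := by
    have e1 : Real.exp (-Δ) = (B ^ ((r : ℝ) / 2))⁻¹ * Real.exp L := by
      rw [hΔ, neg_sub, sub_eq_add_neg, Real.exp_add, mul_comm (Real.exp L), Real.rpow_def_of_pos hBpos,
        ← Real.exp_neg]
      congr 2
      ring
    have e2 : B ^ ((r : ℝ) / 2) ≠ 0 := (Real.rpow_pos_of_pos hBpos _).ne'
    rw [e1, hexpL]
    field_simp
  rw [hcount] at hP1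
  have hpos : 0 < Ps.card := by
    have h1 : (0 : ℝ) < Ps.card := by
      have := le_abs_self C
      linarith
    exact_mod_cast h1
  obtain ⟨P, hP⟩ := Finset.card_pos.1 hpos
  obtain ⟨h3, h4, h5⟩ := hP2 P hP
  have h6 : 0 ≤ truncated S T P := by
    unfold truncated
    refine finsum_nonneg fun v => finsum_nonneg fun _ => ?_
    exact Real.log_natCast_nonneg _
  have h7 : Δ ≤ height T P := by linarith
  have h8 : max H 0 + 1 ≤ Δ := by rw [hΔ]; linarith
  have h9 : 0 < height T P := by linarith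
  have h10 : Real.log (height T P) ≤ Real.log B := Real.log_le_log h9 h4
  have h11 := hH P ⟨h3, by
    have := mul_le_mul_of_nonneg_left h10 hr'.le
    linarith⟩
  have h12 := le_max_left H 0
  linarith

end Pool.Agent.Results.MP_9ec3f0_nt.EllipticErrorTerm
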