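import Mathlib
import Pool.Agent.J4.H51.Vo.Main

set_option autoImplicit false

/-!
# Vojta's conjecture with truncated counting function: a lower bound for the error term

`K` is a number field, `X` the closure in `ℙ^N` of the image of the torus `t ↦ (t^{A 0} : ... : t^{A N})` of
dimension `n` (for example `ℙ^n` or `(ℙ^1)^n`), `D = ∂X + E` the sum of the toric boundary `∂X = -K_X` and of
the divisor `E` cut out on `X` by a form `F` of degree `d`, so that `h_{K_X + D} = d h`. If `E` has
multiplicity at least `μ ≥ 1` at some `K`-rational point `a` of the torus, then the truncated counting function of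
`D` is smaller than `h_{K_X + D}(P)` by at least a constant times `(log B) ^ (μ / (μ + 1)) / log log B`
at many points `P` of height at most `log B`, outside any given proper closed subset. For a normal
crossings divisor `D` one can have `μ = n`.
-/

namespace Pool.Agent.Results.MP_9ec3f0_nt.ErrorTermToricPairs

open NumberField IsDedekindDomain

/-- the vector `(t^{A 0}, ..., t^{A N})`, the coordinates of the point with parameters `t` of the torus -/
def point {K : Type} [Field K] {N n : ℕ} (A : Fin (N + 1) → Fin n → ℕ) (t : Fin n → K) :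
    Fin (N + 1) → K :=
  fun i => ∏ j, t j ^ A i j

/-- the polynomial `F(X^{A 0}, ..., X^{A N})` in `n` variables: the restriction of `F` to the torus -/
noncomputable def restrict {K : Type} [Field K] {N n : ℕ} (A : Fin (N + 1) → Fin n → ℕ)
    (F : MvPolynomial (Fin (N + 1)) K) : MvPolynomial (Fin n) K :=
  MvPolynomial.aeval (fun i => ∏ j, MvPolynomial.X j ^ A i j) F

/-- the maximal ideal of the point `a` of the affine space -/
noncomputable def idealOf {K : Type} [Field K] {n : ℕ} (a : Fin n → K) :
    Ideal (MvPolynomial (Fin n) K) :=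
  Ideal.span (Set.range fun j => MvPolynomial.X j - MvPolynomial.C (a j))

variable {K : Type} [Field K] [NumberField K]

/-- The reduction at the prime `v` of the point with homogeneous coordinates `x` lies on the divisor `D`,
the sum of the hyperplanes `x_i = 0` and of `F = 0`, where `F` is a form of degree `d`: it lies on a
hyperplane `x_i = 0`, or on the closure of `F = 0` in the projective space over the local ring of `v`. -/
def Meets {N : ℕ} (v : HeightOneSpectrum (𝓞 K)) (F : MvPolynomial (Fin (N + 1)) K) (d : ℕ)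
    (x : Fin (N + 1) → K) : Prop :=
  (∃ i, FinitePlace.mk v (x i) < ⨆ j, FinitePlace.mk v (x j)) ∨
    FinitePlace.mk v (MvPolynomial.eval x F) <
      (⨆ m, FinitePlace.mk v (F.coeff m)) * (⨆ j, FinitePlace.mk v (x j)) ^ d

/-- The truncated counting function `N_S^{(1)}(D, P)` at the point with homogeneous coordinates `x`:
the sum of `log N(v)` over the primes `v` outside `S` at which the point meets `D`. -/
noncomputable def truncated {N : ℕ} (S : Set (HeightOneSpectrum (𝓞 K)))
    (F : MvPolynomial (Fin (N + 1)) K) (d : ℕ) (x : Fin (N + 1) → K) : ℝ :=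
  ∑ᶠ v ∈ {v : HeightOneSpectrum (𝓞 K) | v ∉ S ∧ Meets v F d x},
    Real.log (Ideal.absNorm v.asIdeal : ℝ)

/-- the size `(log B) ^ (μ / (μ + 1)) / log log B` of the error term -/
noncomputable def size (μ : ℕ) (B : ℝ) : ℝ :=
  Real.log B ^ ((μ : ℝ) / (μ + 1)) / Real.log (Real.log B)

/-- Let `A 0, ..., A N` be vectors of natural numbers whose differences generate `ℤ^n`, `X ⊆ ℙ^N` the toric
variety with the torus of the points `(t^{A 0} : ... : t^{A N})`, `F` a form of degree `d` not
vanishing on `X` whose restriction to the torus vanishes to order at least `μ ≥ 1` at a `K`-rational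
point `a`, `D` the sum of the toric boundary of `X` and of the divisor `F = 0`, so that
`h_{K_X + D} = d h`. There is `c > 0` such that for every set `S` of primes and every form `G` not
vanishing on `X`, for all large `B`, there are at least `exp (c (log B) ^ (μ / (μ + 1)) / log log B)`
points `P` of `X(K)` off `D` and off `G = 0` with `h(P) ≤ log B` and
`N_S^{(1)}(D, P) ≤ d h(P) - c (log B) ^ (μ / (μ + 1)) / log log B`. -/
theorem result (K : Type) [Field K] [NumberField K] (N n : ℕ) (A : Fin (N + 1) → Fin n → ℕ)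
    (hA : ∀ j, ∃ c : Fin (N + 1) → ℤ, ∑ i, c i = 0 ∧
      ∀ l, ∑ i, c i * (A i l : ℤ) = if l = j then 1 else 0)
    (F : MvPolynomial (Fin (N + 1)) K) (d : ℕ) (hFd : F.IsHomogeneous d) (hF : restrict A F ≠ 0)
    (a : Fin n → K) (ha : ∀ j, a j ≠ 0) (μ : ℕ) (hμ : 1 ≤ μ)
    (hFa : restrict A F ∈ idealOf a ^ μ) :
    ∃ c : ℝ, 0 < c ∧ ∀ (S : Set (HeightOneSpectrum (𝓞 K))) (G : MvPolynomial (Fin (N + 1)) K),
      restrict A G ≠ 0 → ∃ B₀ : ℝ, ∀ B : ℝ, B₀ ≤ B →
        ∃ T : Finset (Projectivization K (Fin (N + 1) → K)),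
          Real.exp (c * size μ B) ≤ T.card ∧
          ∀ P ∈ T, ∃ (t : Fin n → K) (h : point A t ≠ 0), (∀ j, t j ≠ 0) ∧
            P = Projectivization.mk K (point A t) h ∧
            MvPolynomial.eval (point A t) F ≠ 0 ∧ MvPolynomial.eval (point A t) G ≠ 0 ∧
            Height.logHeight (point A t) ≤ Real.log B ∧
            truncated S F d (point A t) ≤ d * Height.logHeight (point A t) - c * size μ B := by
  classical
  have hev : ∀ (F : MvPolynomial (Fin (N + 1)) K) (t : Fin n → K),
      MvPolynomial.eval t (restrict A F) = MvPolynomial.eval (point A t) F := by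
    intro F t
    unfold restrict
    rw [MvPolynomial.aeval_def, MvPolynomial.algebraMap_eq, MvPolynomial.eval_eval₂]
    have h1 : (MvPolynomial.eval t).comp MvPolynomial.C = RingHom.id K := by
      ext x; simp
    rw [h1]
    unfold MvPolynomial.eval
    rw [MvPolynomial.coe_eval₂Hom, MvPolynomial.coe_eval₂Hom]
    congr 1
    funext i
    simp [point]
  obtain ⟨c, hc, hmain⟩ := Pool.Agent.J4.H51.Vo.main A F d hFd a ha μ hμ (restrict A F)
    (fun t => hev F t) hF hFa
  refine ⟨c, hc, fun S G hG => ?_⟩
  obtain ⟨B₀, hB₀⟩ := hmain (restrict A G) hG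
  refine ⟨B₀, fun B hB => ?_⟩
  obtain ⟨T, hT1, hT2⟩ := hB₀ B hB
  rw [mul_div_assoc] at hT1
  have hT2' : ∀ t ∈ T, (∀ j, t j ≠ 0) ∧ MvPolynomial.eval (point A t) F ≠ 0 ∧
      MvPolynomial.eval (point A t) G ≠ 0 ∧ Height.logHeight (point A t) ≤ Real.log B ∧
      truncated S F d (point A t) ≤ d * Height.logHeight (point A t) - c * size μ B := by
    intro t ht
    obtain ⟨h1, h2, h3, h4, h5, h6⟩ := hT2 t ht
    refine ⟨h1, h2, by rw [← hev]; exact h3, h4, ?_⟩
    have hfin : {v : HeightOneSpectrum (𝓞 K) | v ∉ S ∧ Meets v F d (point A t)}.Finite :=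
      h5.subset fun v hv => hv.2
    have htr : truncated S F d (point A t) =
        ∑ v ∈ hfin.toFinset, Pool.Agent.W231.V.ell v := by
      unfold truncated
      rw [finsum_mem_eq_finite_toFinset_sum _ hfin]
      rfl
    rw [htr]
    have h7 := h6 hfin.toFinset fun v hv => (hfin.mem_toFinset.1 hv).2
    rw [mul_div_assoc] at h7
    exact h7
  have hne : ∀ t : Fin n → K, (∀ j, t j ≠ 0) → point A t ≠ 0 := by
    intro t ht h
    exact Pool.Agent.J4.H51.Vo.pt_ne A ht 0 (congrFun h 0)
  have hpos : 0 < T.card := by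
    have : (0 : ℝ) < T.card := (Real.exp_pos _).trans_le hT1
    exact_mod_cast this
  obtain ⟨t₀, ht₀⟩ := Finset.card_pos.1 hpos
  set g : (Fin n → K) → Projectivization K (Fin (N + 1) → K) := fun t =>
    if h : point A t ≠ 0 then Projectivization.mk K (point A t) h else
      Projectivization.mk K (point A t₀) (hne t₀ (hT2' t₀ ht₀).1) with hg
  have hgt : ∀ t ∈ T, ∃ h : point A t ≠ 0, g t = Projectivization.mk K (point A t) h := by
    intro t ht
    have h := hne t (hT2' t ht).1
    refine ⟨h, ?_⟩
    simp only [hg]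
    rw [dif_pos h]
  have hinj : Set.InjOn g T := by
    intro t ht t' ht' h
    obtain ⟨h1, h1'⟩ := hgt t ht
    obtain ⟨h2, h2'⟩ := hgt t' ht'
    rw [h1', h2', Projectivization.mk_eq_mk_iff'] at h
    obtain ⟨lam, hlam⟩ := h
    have hlam0 : lam ≠ 0 := by
      rintro rfl
      rw [zero_smul] at hlam
      exact h1 hlam.symm
    funext j
    obtain ⟨e, he0, he⟩ := hA j
    have q1 := Pool.Agent.J4.H51.Vo.pt_inv A e j he0 he (hT2' t ht).1 (one_ne_zero (α := K))
    have q2 := Pool.Agent.J4.H51.Vo.pt_inv A e j he0 he (hT2' t' ht').1 hlam0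
    rw [← q1, ← q2]
    refine Finset.prod_congr rfl fun i _ => ?_
    have := congrFun hlam i
    rw [one_mul]
    exact congrArg (fun y : K => y ^ e i) this.symm
  refine ⟨T.image g, ?_, fun P hP => ?_⟩
  · rw [Finset.card_image_of_injOn hinj]
    exact hT1
  · obtain ⟨t, ht, rfl⟩ := Finset.mem_image.1 hP
    obtain ⟨h, h'⟩ := hgt t ht
    obtain ⟨h1, h2, h3, h4, h5⟩ := hT2' t ht
    exact ⟨t, h, h1, h', h2, h3, h4, h5⟩

end Pool.Agent.Results.MP_9ec3f0_nt.ErrorTermToricPairs
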